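import Pool.Agent.P8H98.DF.Stm

/-!
# Project EG (helper929): comparing the numbers of moves on `ℤ⁴` (CNT)
-/

set_option autoImplicit false

namespace Pool.Agent.P8H66.DF

open Finset Pool.Agent.P8H98.DF
open Pool.Agent.N929.EG

theorem path_drop (u : List Dir) (i : ℕ) (h : i ≤ u.length) :
    (path u).drop i = pos (u.drop i) :: (path u).drop (i + 1) := by
  have hi : i < (path u).length := by rw [path_length]; omega
  rw [List.drop_eq_getElem_cons hi, path_getElem]

theorem infix2 (u : List Dir) (i : ℕ) (h : i + 1 ≤ u.length) :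
    [pos (u.drop (i + 1)), pos (u.drop i)] <:+: (path u).reverse := by
  have h1 : [pos (u.drop i), pos (u.drop (i + 1))] <:+: path u := by
    refine ⟨(path u).take i, (path u).drop (i + 2), ?_⟩
    conv_rhs => rw [← List.take_append_drop i (path u)]
    rw [path_drop u i (by omega), path_drop u (i + 1) h]
    simp
  have h2 := List.reverse_infix.2 h1
  simpa using h2

theorem infix4 (u : List Dir) (i : ℕ) (h : i + 3 ≤ u.length) :
    [pos (u.drop (i + 3)), pos (u.drop (i + 2)), pos (u.drop (i + 1)), pos (u.drop i)] <:+:
      (path u).reverse := by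
  have h1 : [pos (u.drop i), pos (u.drop (i + 1)), pos (u.drop (i + 2)),
      pos (u.drop (i + 3))] <:+: path u := by
    refine ⟨(path u).take i, (path u).drop (i + 4), ?_⟩
    conv_rhs => rw [← List.take_append_drop i (path u)]
    rw [path_drop u i (by omega), path_drop u (i + 1) (by omega), path_drop u (i + 2) (by omega),
      path_drop u (i + 3) h]
    simp
  have h2 := List.reverse_infix.2 h1
  simpa using h2

theorem pos_inj {u : List Dir} (hu : SAW u) {i j : ℕ} (hi : i ≤ u.length) (hj : j ≤ u.length)
    (h : pos (u.drop i) = pos (u.drop j)) : i = j := by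
  have hi' : i < (path u).length := by rw [path_length]; omega
  have hj' : j < (path u).length := by rw [path_length]; omega
  rw [← path_getElem u i hi', ← path_getElem u j hj'] at h
  exact (List.Nodup.getElem_inj_iff hu).1 h

theorem ax_neg (d : Dir) : ax (neg d) = ax d := by cases d <;> rfl

theorem cnt : S_CNT := by
  classical
  intro n u hu S
  have hsaw : SAW u := (mem_SS.1 hu).2
  constructor
  · intro hS
    unfold fr
    let f : ℕ × Dir → List Z4 × List Z4 := fun q =>
      ([pos (u.drop (q.1 + 1)), pos (u.drop (q.1 + 1)) + vec (u.getD q.1 .xp)],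
        [pos (u.drop (q.1 + 1)), pos (u.drop (q.1 + 1)) + vec q.2,
          pos (u.drop (q.1 + 1)) + vec q.2 + vec (u.getD q.1 .xp),
          pos (u.drop (q.1 + 1)) + vec (u.getD q.1 .xp)])
    refine card_le_card_of_injOn f ?_ ?_
    · rintro ⟨i, d⟩ hq
      rw [mem_coe, mem_sites] at hq
      obtain ⟨h1, h2, h3, h4⟩ := hq
      rw [mem_coe, hS]
      refine ⟨⟨_, _, _, h2, rfl, rfl⟩, ?_, ?_⟩
      · have h5 := infix2 u i h1
        rw [pos_drop u i h1] at h5
        exact h5
      · intro x hx hx'
        simp only [f, List.mem_cons, List.not_mem_nil, or_false, not_or] at hx hx'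
        rw [List.mem_reverse]
        rcases hx with rfl | rfl | rfl | rfl
        · exact absurd rfl hx'.1
        · exact h3
        · exact h4
        · exact absurd rfl hx'.2
    · rintro ⟨i, d⟩ hq ⟨i', d'⟩ hq' h
      rw [mem_coe, mem_sites] at hq hq'
      simp only [f, Prod.mk.injEq, List.cons.injEq, and_true] at h
      have h1 := pos_inj hsaw (Nat.succ_le_of_lt hq.1) (Nat.succ_le_of_lt hq'.1) h.1.1
      have h2 : i = i' := by simpa using h1
      subst h2
      have h3 : vec d = vec d' := add_left_cancel h.2.2.1
      rw [vec_inj h3]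
  · intro hS
    unfold bu
    let f : ℕ → List Z4 × List Z4 := fun j =>
      ([pos (u.drop (j + 3)), pos (u.drop (j + 3)) + vec (u.getD (j + 1) .xp)],
        [pos (u.drop (j + 3)), pos (u.drop (j + 3)) + vec (u.getD (j + 2) .xp),
          pos (u.drop (j + 3)) + vec (u.getD (j + 2) .xp) + vec (u.getD (j + 1) .xp),
          pos (u.drop (j + 3)) + vec (u.getD (j + 1) .xp)])
    refine card_le_card_of_injOn f ?_ ?_
    · intro j hj
      rw [mem_coe, mem_bumps] at hj
      obtain ⟨h1, h2, h3⟩ := hj
      rw [mem_coe, hS]
      refine ⟨⟨_, _, _, ?_, rfl, rfl⟩, ?_, ?_⟩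
      · unfold perp at h3 ⊢
        rw [h2, ax_neg] at h3
        exact h3
      · have h5 := infix4 u j (by omega)
        have e2 : pos (u.drop (j + 2)) = pos (u.drop (j + 3)) + vec (u.getD (j + 2) .xp) :=
          pos_drop u (j + 2) h1
        have e1 : pos (u.drop (j + 1)) = pos (u.drop (j + 2)) + vec (u.getD (j + 1) .xp) :=
          pos_drop u (j + 1) (by omega)
        have e0 : pos (u.drop j) = pos (u.drop (j + 3)) + vec (u.getD (j + 1) .xp) := by
          rw [pos_drop u j (by omega), e1, e2, h2, vec_neg]
          abel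
        rw [e0, e1, e2] at h5
        exact h5
      · intro x hx hx'
        exfalso
        simp only [f, List.mem_cons, List.not_mem_nil, or_false, not_or] at hx hx'
        rcases hx with rfl | rfl
        · exact hx'.1 rfl
        · exact hx'.2.2.2 rfl
    · intro j hj j' hj' h
      rw [mem_coe, mem_bumps] at hj hj'
      simp only [f, Prod.mk.injEq, List.cons.injEq, and_true] at h
      have h1 := pos_inj hsaw (i := j + 3) (j := j' + 3) (by have := hj.1; omega)
        (by have := hj'.1; omega) h.1.1
      omega

end Pool.Agent.P8H66.DF
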