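import Pool.Agent.P8H98.DF.Stm3

/-!
# Project DF (helper98), package SMP: unconditional sampling (author helper66)
-/

set_option autoImplicit false

namespace Pool.Agent.P8H66.DF

open Filter Topology
open Pool.Agent.P8H98.DF

theorem steps {a : ℕ → ℝ} {K : ℝ} {n j : ℕ} (h : ∀ i < j, |a (n + i + 1) - a (n + i)| ≤ K) :
    |a (n + j) - a n| ≤ j * K := by
  induction j with
  | zero => simp
  | succ j ih =>
    have h1 := ih fun i hi => h i (by omega)
    have h2 := h j (by omega)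
    have h3 := abs_sub_le (a (n + (j + 1))) (a (n + j)) (a n)
    push_cast
    have h4 : n + (j + 1) = n + j + 1 := by ring
    rw [h4] at h3 ⊢
    linarith

theorem steps2 {a : ℕ → ℝ} {K : ℝ} {n j : ℕ} (h : ∀ i < j, |a (n + 2 * i + 2) - a (n + 2 * i)| ≤ K) :
    |a (n + 2 * j) - a n| ≤ j * K := by
  induction j with
  | zero => simp
  | succ j ih =>
    have h1 := ih fun i hi => h i (by omega)
    have h2 := h j (by omega)
    have h3 := abs_sub_le (a (n + 2 * (j + 1))) (a (n + 2 * j)) (a n)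
    push_cast
    have h4 : n + 2 * (j + 1) = n + 2 * j + 2 := by ring
    rw [h4] at h3 ⊢
    linarith

theorem log_ge {n : ℕ} (hn : 3 ≤ n) : 1 ≤ Real.log n := by
  have h1 : (3 : ℝ) ≤ n := by exact_mod_cast hn
  rw [Real.le_log_iff_exp_le (by linarith)]
  have := Real.exp_one_lt_d9
  linarith

theorem smp : S_SMP := by
  intro M g C A₁ hM hstep hg hgs q S B hq hS hden hB hlim
  have hlogM : ∀ n, 2 ≤ n → Real.log (M n / g n) = Real.log (M n) - Real.log (g n) := fun n hn =>
    Real.log_div (hM n hn).ne' (hg n).ne'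
  have hL : Tendsto (fun n : ℕ => Real.log (M n / g n)) (atTop ⊓ 𝓟 S) (𝓝 (Real.log B)) :=
    (Real.continuousAt_log hB.ne').tendsto.comp hlim
  have goal : Tendsto (fun n : ℕ => Real.log (M n / g n)) (atTop ⊓ 𝓟 {n | n % 2 = q})
      (𝓝 (Real.log B)) := by
    rw [Metric.tendsto_nhds] at hL ⊢
    intro ε hε
    have h1 := hL (ε / 2) (by positivity)
    rw [eventually_inf_principal] at h1 ⊢
    obtain ⟨δ, hδ0, hδ1, hδ2⟩ : ∃ δ : ℝ, 0 < δ ∧ δ ≤ 1 ∧ (|C| + |A₁|) * δ < ε / 2 := by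
      refine ⟨min 1 (ε / (4 * (|C| + |A₁| + 1))), ?_, min_le_left _ _, ?_⟩
      · refine lt_min one_pos ?_
        positivity
      · have h2 : min 1 (ε / (4 * (|C| + |A₁| + 1))) ≤ ε / (4 * (|C| + |A₁| + 1)) := min_le_right _ _
        have h3 : (|C| + |A₁|) * min 1 (ε / (4 * (|C| + |A₁| + 1))) ≤
            (|C| + |A₁| + 1) * (ε / (4 * (|C| + |A₁| + 1))) := by
          refine mul_le_mul (by linarith) h2 ?_ (by positivity)
          exact le_min one_pos.le (by positivity)
        have h4 : (|C| + |A₁| + 1) * (ε / (4 * (|C| + |A₁| + 1))) = ε / 4 := by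
          have : |C| + |A₁| + 1 ≠ 0 := by positivity
          field_simp
        linarith
    obtain ⟨N₁, hN₁⟩ := eventually_atTop.1 h1
    filter_upwards [hden δ hδ0, eventually_ge_atTop (max N₁ 3)] with n hn hnN hnq
    obtain ⟨m, hmS, hnm, hmn⟩ := hn
    have hn1 : N₁ ≤ n := (le_max_left _ _).trans hnN
    have hn3 : 3 ≤ n := (le_max_right _ _).trans hnN
    have hmq := hS m hmS
    have hnq' : n % 2 = q := hnq
    obtain ⟨j, rfl⟩ : ∃ j, m = n + 2 * j := ⟨(m - n) / 2, by omega⟩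
    have hnR : (3 : ℝ) ≤ n := by exact_mod_cast hn3
    have hn0 : (0 : ℝ) < n := by linarith
    have hlog := log_ge hn3
    have hsq1 : 1 ≤ Real.sqrt (Real.log n) := Real.one_le_sqrt.2 hlog
    have hsq0 : 0 < Real.sqrt (Real.log n) := by linarith
    set r := (n : ℝ) ^ (1 / 4 : ℝ) with hr
    have hr0 : 0 < r := Real.rpow_pos_of_pos hn0 _
    have hrn : r ≤ n := by
      have := Real.rpow_le_rpow_of_exponent_le (by linarith : (1 : ℝ) ≤ n)
        (by norm_num : (1 / 4 : ℝ) ≤ 1)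
      rwa [Real.rpow_one] at this
    have hj : (2 * j : ℝ) ≤ δ * (r / Real.sqrt (Real.log n)) := by
      push_cast at hmn
      linarith
    have hj2 : (2 * j : ℝ) * Real.sqrt (Real.log n) ≤ δ * r := by
      have := mul_le_mul_of_nonneg_right hj hsq0.le
      rwa [mul_assoc δ, div_mul_cancel₀ _ hsq0.ne'] at this
    have hj0 : (0 : ℝ) ≤ 2 * j := by positivity
    have hj3 : (2 * j : ℝ) ≤ δ * n := by
      have h2 : (2 * j : ℝ) * 1 ≤ (2 * j : ℝ) * Real.sqrt (Real.log n) :=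
        mul_le_mul_of_nonneg_left hsq1 hj0
      have h3 : δ * r ≤ δ * n := mul_le_mul_of_nonneg_left hrn hδ0.le
      linarith
    have hj4 : 2 * j ≤ n := by
      have h2 : δ * n ≤ 1 * n := mul_le_mul_of_nonneg_right hδ1 hn0.le
      have h3 : (2 * j : ℝ) ≤ n := by linarith
      exact_mod_cast h3
    -- the steps of `M`
    have sM : |Real.log (M (n + 2 * j)) - Real.log (M n)| ≤
        j * (|C| * (r⁻¹ * (2 * Real.sqrt (Real.log n)))) := by
      refine steps2 (a := fun k => Real.log (M k)) fun i hi => ?_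
      refine (hstep (n + 2 * i) (by omega)).trans ?_
      have hk0 : (0 : ℝ) < ((n + 2 * i : ℕ) : ℝ) := by
        have : 0 < n + 2 * i := by omega
        exact_mod_cast this
      have hkn : (n : ℝ) ≤ ((n + 2 * i : ℕ) : ℝ) := by exact_mod_cast (by omega : n ≤ n + 2 * i)
      have hk2 : ((n + 2 * i : ℕ) : ℝ) ≤ n * n := by
        have h2 : ((n + 2 * i : ℕ) : ℝ) ≤ 2 * n := by
          have : n + 2 * i ≤ 2 * n := by omega
          exact_mod_cast this
        nlinarith
      have p1 : ((n + 2 * i : ℕ) : ℝ) ^ (-(1 / 4) : ℝ) ≤ r⁻¹ := by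
        rw [hr, ← Real.rpow_neg hn0.le]
        exact Real.rpow_le_rpow_of_nonpos hn0 hkn (by norm_num)
      have p2 : Real.sqrt (Real.log ((n + 2 * i : ℕ) : ℝ)) ≤ 2 * Real.sqrt (Real.log n) := by
        have h2 : Real.log ((n + 2 * i : ℕ) : ℝ) ≤ 2 * Real.log n := by
          have := Real.log_le_log hk0 hk2
          rw [Real.log_mul hn0.ne' hn0.ne'] at this
          linarith
        have h3 : Real.sqrt (Real.log ((n + 2 * i : ℕ) : ℝ)) ≤ Real.sqrt (2 ^ 2 * Real.log n) :=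
          Real.sqrt_le_sqrt (by nlinarith)
        rwa [Real.sqrt_mul (by norm_num), Real.sqrt_sq (by norm_num)] at h3
      have p3 : ((n + 2 * i : ℕ) : ℝ) ^ (-(1 / 4) : ℝ) * Real.sqrt (Real.log ((n + 2 * i : ℕ) : ℝ)) ≤
          r⁻¹ * (2 * Real.sqrt (Real.log n)) :=
        mul_le_mul p1 p2 (Real.sqrt_nonneg _) (by positivity)
      have p4 : 0 ≤ ((n + 2 * i : ℕ) : ℝ) ^ (-(1 / 4) : ℝ) *
          Real.sqrt (Real.log ((n + 2 * i : ℕ) : ℝ)) := by positivity
      calc C * (((n + 2 * i : ℕ) : ℝ) ^ (-(1 / 4) : ℝ) *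
            Real.sqrt (Real.log ((n + 2 * i : ℕ) : ℝ))) ≤
            |C| * (((n + 2 * i : ℕ) : ℝ) ^ (-(1 / 4) : ℝ) *
            Real.sqrt (Real.log ((n + 2 * i : ℕ) : ℝ))) :=
            mul_le_mul_of_nonneg_right (le_abs_self _) p4
        _ ≤ _ := mul_le_mul_of_nonneg_left p3 (abs_nonneg _)
    have sM2 : (j : ℝ) * (|C| * (r⁻¹ * (2 * Real.sqrt (Real.log n)))) ≤ |C| * δ := by
      have e : (j : ℝ) * (|C| * (r⁻¹ * (2 * Real.sqrt (Real.log n)))) =
          |C| * ((2 * j * Real.sqrt (Real.log n)) / r) := by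
        field_simp
      rw [e]
      refine mul_le_mul_of_nonneg_left ?_ (abs_nonneg _)
      rw [div_le_iff₀ hr0]
      exact hj2
    -- the steps of `g`
    have sg : |Real.log (g (n + 2 * j)) - Real.log (g n)| ≤ ((2 * j : ℕ) : ℝ) * (|A₁| / n) := by
      refine steps (a := fun k => Real.log (g k)) fun i hi => ?_
      refine (hgs (n + i) (by omega)).trans ?_
      have hk0 : (0 : ℝ) < ((n + i : ℕ) : ℝ) := by
        have : 0 < n + i := by omega
        exact_mod_cast this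
      have hkn : (n : ℝ) ≤ ((n + i : ℕ) : ℝ) := by exact_mod_cast (by omega : n ≤ n + i)
      calc A₁ / ((n + i : ℕ) : ℝ) ≤ |A₁| / ((n + i : ℕ) : ℝ) :=
            div_le_div_of_nonneg_right (le_abs_self _) hk0.le
        _ ≤ |A₁| / n := div_le_div_of_nonneg_left (abs_nonneg _) hn0 hkn
    have sg2 : ((2 * j : ℕ) : ℝ) * (|A₁| / n) ≤ |A₁| * δ := by
      have e : ((2 * j : ℕ) : ℝ) * (|A₁| / n) = |A₁| * ((2 * j) / n) := by
        push_cast
        ring
      rw [e]
      refine mul_le_mul_of_nonneg_left ?_ (abs_nonneg _)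
      rw [div_le_iff₀ hn0]
      exact hj3
    have hm := hN₁ (n + 2 * j) (by omega) hmS
    rw [Real.dist_eq, hlogM _ (by omega)] at hm ⊢
    rw [abs_lt] at hm ⊢
    have t1 := abs_le.1 (sM.trans sM2)
    have t2 := abs_le.1 (sg.trans sg2)
    have t3 : (|C| + |A₁|) * δ = |C| * δ + |A₁| * δ := by ring
    obtain ⟨u1, u2⟩ := hm
    obtain ⟨u3, u4⟩ := t1
    obtain ⟨u5, u6⟩ := t2
    constructor <;> linarith
  have hexp := (Real.continuous_exp.tendsto (Real.log B)).comp goal
  rw [Real.exp_log hB] at hexp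
  refine hexp.congr' ?_
  have h2 : ∀ᶠ n : ℕ in atTop ⊓ 𝓟 {n | n % 2 = q}, 2 ≤ n :=
    (eventually_ge_atTop 2).filter_mono inf_le_left
  filter_upwards [h2] with n hn
  rw [Function.comp_apply, Real.exp_log (div_pos (hM n hn) (hg n))]

end Pool.Agent.P8H66.DF
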