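import Pool.Agent.P8H98.DF.Stm3

/-!
# Project DF (helper98), package WKB: from Kesten's inequality and the ratio limit to `Wk`
(author helper66)
-/

set_option autoImplicit false

namespace Pool.Agent.P8H66.DF

open Filter Topology
open Pool.Agent.Y943.SL (Wk)
open Pool.Agent.P8H98.DF

theorem wkb : S_WKB := by
  intro w μ D B φ hμ hD low kes up sub hφ rat
  have hμ0 : 0 < μ := lt_of_lt_of_le one_pos hμ
  have wpos : ∀ n, 0 < w n := fun n => lt_of_lt_of_le (pow_pos hμ0 n) (low n)
  have hB : 0 < B := by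
    have h1 := up 0
    have h2 := wpos 1
    have h3 := wpos 0
    by_contra hB
    push Not at hB
    have : B * w 0 ≤ 0 := mul_nonpos_of_nonpos_of_nonneg hB h3.le
    have h4 : w (0 + 1) = w 1 := rfl
    linarith
  refine ⟨hμ0, low, ⟨D, hD, fun s hs => ?_⟩, ?_, ?_⟩
  · obtain ⟨N, hN⟩ := eventually_atTop.1 kes
    refine ⟨N + 1, fun k hk _ => ?_⟩
    have hk1 : N + 1 ≤ k := hk
    have hkp : (0 : ℝ) < k := by
      have : 0 < k := by omega
      exact_mod_cast this
    have h1 := hN (2 * k + s) (by omega)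
    show (w (2 * (k + 1) + s) / μ ^ (2 * (k + 1) + s)) ^ 2 ≤
      w (2 * k + s) / μ ^ (2 * k + s) * (w (2 * (k + 2) + s) / μ ^ (2 * (k + 2) + s)) * (1 + D / k)
    have e1 : 2 * (k + 1) + s = 2 * k + s + 2 := by ring
    have e2 : 2 * (k + 2) + s = 2 * k + s + 4 := by ring
    rw [e1, e2]
    have h2 : (1 : ℝ) + D / ((2 * k + s : ℕ) : ℝ) ≤ 1 + D / k := by
      have h3 : (k : ℝ) ≤ ((2 * k + s : ℕ) : ℝ) := by
        exact_mod_cast (by omega : k ≤ 2 * k + s)
      have := div_le_div_of_nonneg_left hD hkp h3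
      linarith
    set n := 2 * k + s with hn
    have h3 : w (n + 2) ^ 2 ≤ w n * w (n + 4) * (1 + D / k) :=
      h1.trans (mul_le_mul_of_nonneg_left h2 (mul_nonneg (wpos _).le (wpos _).le))
    have e3 : (w (n + 2) / μ ^ (n + 2)) ^ 2 = w (n + 2) ^ 2 / μ ^ (2 * n + 4) := by
      rw [div_pow, ← pow_mul]
      congr 2
      ring
    have e4 : w n / μ ^ n * (w (n + 4) / μ ^ (n + 4)) * (1 + D / k) =
        w n * w (n + 4) * (1 + D / k) / μ ^ (2 * n + 4) := by
      rw [div_mul_div_comm, ← pow_add, div_mul_eq_mul_div]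
      congr 2
      ring
    rw [e3, e4]
    exact div_le_div_of_nonneg_right h3 (pow_pos hμ0 _).le
  · -- bounded steps
    have key : ∀ n, Real.log (w (n + 1) / μ ^ (n + 1)) - Real.log (w n / μ ^ n) =
        Real.log (w (n + 1) / w n) - Real.log μ := by
      intro n
      rw [Real.log_div (wpos _).ne' (pow_pos hμ0 _).ne', Real.log_div (wpos _).ne'
        (pow_pos hμ0 _).ne', Real.log_div (wpos _).ne' (wpos _).ne', Real.log_pow, Real.log_pow]
      push_cast
      ring
    have hup : ∀ n, Real.log (w (n + 1) / w n) ≤ Real.log B := by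
      intro n
      refine Real.log_le_log (div_pos (wpos _) (wpos _)) ?_
      rw [div_le_iff₀ (wpos _)]
      exact up n
    have hlow : ∀ᶠ n : ℕ in atTop, Real.log (μ ^ 2 / 2 / B) ≤ Real.log (w (n + 1) / w n) := by
      have h1 : ∀ᶠ n : ℕ in atTop, μ ^ 2 / 2 < w (n + 2) / w n :=
        rat.eventually (lt_mem_nhds (by nlinarith [pow_pos hμ0 2]))
      filter_upwards [h1] with n hn
      refine Real.log_le_log (by positivity) ?_
      rw [div_le_iff₀ hB]
      have h2 := up (n + 1)
      have h3 : w (n + 2) / w n ≤ B * w (n + 1) / w n := div_le_div_of_nonneg_right h2 (wpos n).le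
      have h4 : B * w (n + 1) / w n = w (n + 1) / w n * B := by ring
      linarith
    obtain ⟨N, hN⟩ := eventually_atTop.1 hlow
    set a : ℕ → ℝ := fun n => |Real.log (w (n + 1) / μ ^ (n + 1)) - Real.log (w n / μ ^ n)| with ha
    have ha0 : ∀ n, 0 ≤ a n := fun n => abs_nonneg _
    refine ⟨∑ i ∈ Finset.range N, a i + (|Real.log B| + |Real.log (μ ^ 2 / 2 / B)| + |Real.log μ|),
      fun n _ => ?_⟩
    rcases lt_or_ge n N with hn | hn
    · have h1 : a n ≤ ∑ i ∈ Finset.range N, a i :=
        Finset.single_le_sum (fun i _ => ha0 i) (Finset.mem_range.2 hn)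
      have h2 : 0 ≤ |Real.log B| + |Real.log (μ ^ 2 / 2 / B)| + |Real.log μ| := by positivity
      have h3 : a n = |Real.log (w (n + 1) / μ ^ (n + 1)) - Real.log (w n / μ ^ n)| := rfl
      linarith
    · have h1 : 0 ≤ ∑ i ∈ Finset.range N, a i := Finset.sum_nonneg fun i _ => ha0 i
      have h2 := hN n hn
      have h3 := hup n
      have b1 := le_abs_self (Real.log B)
      have b2 := neg_abs_le (Real.log (μ ^ 2 / 2 / B))
      have b3 := le_abs_self (Real.log μ)
      have b4 := neg_abs_le (Real.log μ)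
      have b5 := abs_nonneg (Real.log B)
      have b6 := abs_nonneg (Real.log (μ ^ 2 / 2 / B))
      rw [key, abs_le]
      constructor <;> linarith
  · refine squeeze_zero' (Eventually.of_forall fun n => ?_) ?_ hφ
    · refine div_nonneg (Real.log_nonneg ?_) (Nat.cast_nonneg _)
      rw [one_le_div (pow_pos hμ0 n)]
      exact low n
    · filter_upwards [sub] with n hn
      refine div_le_div_of_nonneg_right ?_ (Nat.cast_nonneg _)
      rw [Real.log_le_iff_le_exp (div_pos (wpos n) (pow_pos hμ0 n)), div_le_iff₀ (pow_pos hμ0 n)]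
      linarith

end Pool.Agent.P8H66.DF
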